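import Mathlib

/-!
Threshold lemmas for plan B of project RN (helper61, note 2712 (4)).

* `exists_thr` : from `N s < N s' -> L s < L s'` a monotone `E : Nat -> R` which separates:
  `E c < L s` for `c < N s` and `L s < E c` for `N s <= c` (strict optimum at `N s`).
* `exists_thr_free` : the version with optimum exactly `{a s, a s + 1}`.
* `exists_digit` : the binary comparison of two weighted digit sums.
* `lam_lt` : the comparison of the fields.
-/

set_option autoImplicit false

namespace H44RNB

open Finset

section Thr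

variable {S : Type*} [Fintype S] [Nonempty S]

theorem exists_bd (L : S → ℝ) : ∃ B : ℝ, ∀ s, |L s| < B := by
  classical
  refine ⟨univ.sup' univ_nonempty (fun s => |L s|) + 1, fun s => ?_⟩
  have : |L s| ≤ univ.sup' univ_nonempty (fun s => |L s|) :=
    Finset.le_sup' (fun s => |L s|) (mem_univ s)
  linarith

/-- Strict version. -/
theorem exists_thr (N : S → ℕ) (L : S → ℝ) (h : ∀ s s', N s < N s' → L s < L s') :
    ∃ E : ℕ → ℝ, Monotone E ∧ (∀ s c, c < N s → E c < L s) ∧ (∀ s c, N s ≤ c → L s < E c) := by
  classical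
  obtain ⟨B, hB⟩ := exists_bd L
  have hB1 : ∀ s, L s < B := fun s => lt_of_le_of_lt (le_abs_self _) (hB s)
  have hB2 : ∀ s, -B < L s := fun s => by
    have := (abs_lt.1 (hB s)).1; exact this
  have hB0 : -B < B := by
    obtain ⟨s⟩ := (inferInstance : Nonempty S)
    exact (hB2 s).trans (hB1 s)
  set lo : ℕ → S → ℝ := fun c s => if N s ≤ c then L s else -B with hlo
  set hi : ℕ → S → ℝ := fun c s => if c < N s then L s else B with hhi
  set A : ℕ → ℝ := fun c => univ.sup' univ_nonempty (lo c) with hA
  set U : ℕ → ℝ := fun c => univ.inf' univ_nonempty (hi c) with hU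
  have hlt : ∀ c, A c < U c := by
    intro c
    rw [hA, hU]
    rw [Finset.sup'_lt_iff]
    intro s _
    rw [Finset.lt_inf'_iff]
    intro t _
    simp only [hlo, hhi]
    split_ifs with h1 h2 h2
    · exact h s t (by omega)
    · exact hB1 s
    · exact hB2 t
    · exact hB0
  have hAmono : Monotone A := by
    intro c c' hc
    refine Finset.sup'_le _ _ fun s _ => ?_
    refine le_trans ?_ (Finset.le_sup' (lo c') (mem_univ s))
    simp only [hlo]
    split_ifs with h1 h2 h2
    · exact le_rfl
    · omega
    · exact (hB2 s).le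
    · exact le_rfl
  have hUmono : Monotone U := by
    intro c c' hc
    refine Finset.le_inf' _ _ fun s _ => ?_
    refine le_trans (Finset.inf'_le (hi c) (mem_univ s)) ?_
    simp only [hhi]
    split_ifs with h1 h2 h2
    · exact le_rfl
    · exact (hB1 s).le
    · omega
    · exact le_rfl
  refine ⟨fun c => (A c + U c) / 2, ?_, ?_, ?_⟩
  · intro c c' hc
    have h1 := hAmono hc
    have h2 := hUmono hc
    show (A c + U c) / 2 ≤ (A c' + U c') / 2
    linarith
  · intro s c hc
    have h1 := hlt c
    have h2 : U c ≤ L s := by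
      have h3 : U c ≤ hi c s := Finset.inf'_le (hi c) (mem_univ s)
      have h4 : hi c s = L s := by simp only [hhi]; rw [if_pos hc]
      rw [h4] at h3; exact h3
    show (A c + U c) / 2 < L s
    linarith
  · intro s c hc
    have h1 := hlt c
    have h2 : L s ≤ A c := by
      have h3 : lo c s ≤ A c := Finset.le_sup' (lo c) (mem_univ s)
      have h4 : lo c s = L s := by simp only [hlo]; rw [if_pos hc]
      rw [h4] at h3; exact h3
    show L s < (A c + U c) / 2
    linarith

/-- Free version: the optimum is exactly `{a s, a s + 1}`. -/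
theorem exists_thr_free (a : S → ℕ) (L : S → ℝ) (h : ∀ s s', a s < a s' → L s < L s')
    (h' : ∀ s s', a s = a s' → L s = L s') :
    ∃ E : ℕ → ℝ, Monotone E ∧ (∀ s c, c < a s → E c < L s) ∧ (∀ s, E (a s) = L s) ∧
      (∀ s c, a s < c → L s < E c) := by
  classical
  obtain ⟨B, hB⟩ := exists_bd L
  have hB1 : ∀ s, L s < B := fun s => lt_of_le_of_lt (le_abs_self _) (hB s)
  have hB2 : ∀ s, -B < L s := fun s => by
    have := (abs_lt.1 (hB s)).1; exact this
  have hB0 : -B < B := by
    obtain ⟨s⟩ := (inferInstance : Nonempty S)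
    exact (hB2 s).trans (hB1 s)
  set lo : ℕ → S → ℝ := fun c s => if a s ≤ c then L s else -B with hlo
  set hi : ℕ → S → ℝ := fun c s => if c ≤ a s then L s else B with hhi
  set A : ℕ → ℝ := fun c => univ.sup' univ_nonempty (lo c) with hA
  set U : ℕ → ℝ := fun c => univ.inf' univ_nonempty (hi c) with hU
  have hlt : ∀ c, A c ≤ U c := by
    intro c
    rw [hA, hU]
    refine Finset.sup'_le _ _ fun s _ => ?_
    refine Finset.le_inf' _ _ fun t _ => ?_
    simp only [hlo, hhi]
    split_ifs with h1 h2 h2
    · rcases Nat.lt_or_ge (a s) (a t) with h3 | h3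
      · exact (h s t h3).le
      · exact (h' s t (by omega)).le
    · exact (hB1 s).le
    · exact (hB2 t).le
    · exact hB0.le
  have hAmono : Monotone A := by
    intro c c' hc
    refine Finset.sup'_le _ _ fun s _ => ?_
    refine le_trans ?_ (Finset.le_sup' (lo c') (mem_univ s))
    simp only [hlo]
    split_ifs with h1 h2 h2
    · exact le_rfl
    · omega
    · exact (hB2 s).le
    · exact le_rfl
  have hUmono : Monotone U := by
    intro c c' hc
    refine Finset.le_inf' _ _ fun s _ => ?_
    refine le_trans (Finset.inf'_le (hi c) (mem_univ s)) ?_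
    simp only [hhi]
    split_ifs with h1 h2 h2
    · exact le_rfl
    · exact (hB1 s).le
    · omega
    · exact le_rfl
  refine ⟨fun c => (A c + U c) / 2, ?_, ?_, ?_, ?_⟩
  · intro c c' hc
    have h1 := hAmono hc
    have h2 := hUmono hc
    show (A c + U c) / 2 ≤ (A c' + U c') / 2
    linarith
  · intro s c hc
    have h1 : A c < L s := by
      rw [hA]
      rw [Finset.sup'_lt_iff]
      intro t _
      simp only [hlo]
      split_ifs with h2
      · exact h t s (by omega)
      · exact hB2 s
    have h2 : U c ≤ L s := by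
      have h3 : U c ≤ hi c s := Finset.inf'_le (hi c) (mem_univ s)
      have h4 : hi c s = L s := by simp only [hhi]; rw [if_pos hc.le]
      rw [h4] at h3; exact h3
    show (A c + U c) / 2 < L s
    linarith
  · intro s
    have h1 : A (a s) = L s := by
      apply le_antisymm
      · refine Finset.sup'_le _ _ fun t _ => ?_
        simp only [hlo]
        split_ifs with h2
        · rcases Nat.lt_or_ge (a t) (a s) with h3 | h3
          · exact (h t s h3).le
          · exact (h' t s (by omega)).le
        · exact (hB2 s).le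
      · have h3 : lo (a s) s ≤ A (a s) := Finset.le_sup' (lo (a s)) (mem_univ s)
        have h4 : lo (a s) s = L s := by simp only [hlo]; rw [if_pos le_rfl]
        rw [h4] at h3; exact h3
    have h2 : U (a s) = L s := by
      apply le_antisymm
      · have h3 : U (a s) ≤ hi (a s) s := Finset.inf'_le (hi (a s)) (mem_univ s)
        have h4 : hi (a s) s = L s := by simp only [hhi]; rw [if_pos le_rfl]
        rw [h4] at h3; exact h3
      · refine Finset.le_inf' _ _ fun t _ => ?_
        simp only [hhi]
        split_ifs with h2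
        · rcases Nat.lt_or_ge (a s) (a t) with h3 | h3
          · exact (h s t h3).le
          · exact (h' s t (by omega)).le
        · exact (hB1 s).le
    show (A (a s) + U (a s)) / 2 = L s
    rw [h1, h2]; ring
  · intro s c hc
    have h1 : L s < U c := by
      rw [hU]
      rw [Finset.lt_inf'_iff]
      intro t _
      simp only [hhi]
      split_ifs with h2
      · exact h s t (by omega)
      · exact hB1 s
    have h2 : L s ≤ A c := by
      have h3 : lo c s ≤ A c := Finset.le_sup' (lo c) (mem_univ s)
      have h4 : lo c s = L s := by simp only [hlo]; rw [if_pos hc.le]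
      rw [h4] at h3; exact h3
    show L s < (A c + U c) / 2
    linarith

end Thr

section Digits

/-- Weighted digit sum. -/
def dsum (K : ℕ) (a : ℕ → ℕ) (s : ℕ → Bool) : ℕ := ∑ i ∈ range K, if s i then a i else 0

/-- Field. -/
def lam (K : ℕ) (G : ℝ) (len : ℕ → ℝ) (s : ℕ → Bool) : ℝ :=
  ∑ i ∈ range K, if s i then G ^ i * len i else 0

theorem sum_le_of_super (a : ℕ → ℕ) (j i0 : ℕ) (hj : j ≤ i0) (h0 : ∀ i < i0, a i = 0)
    (h1 : a i0 ≤ 2 ^ (i0 - j)) (h2 : ∀ i > i0, a i = 2 ^ (i - j)) (i : ℕ) (hi : i0 < i) :
    ∑ i' ∈ range i, a i' ≤ a i := by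
  have key : ∀ m, i0 ≤ m → ∑ i' ∈ range (m + 1), a i' ≤ 2 ^ (m + 1 - j) := by
    intro m hm
    induction m, hm using Nat.le_induction with
    | base =>
      rw [Finset.sum_range_succ]
      have : ∑ i' ∈ range i0, a i' = 0 := by
        apply Finset.sum_eq_zero
        intro x hx
        exact h0 x (Finset.mem_range.1 hx)
      rw [this]
      have h3 : 2 ^ (i0 - j) ≤ 2 ^ (i0 + 1 - j) := Nat.pow_le_pow_right (by norm_num) (by omega)
      omega
    | succ m hm ih =>
      rw [Finset.sum_range_succ, h2 (m + 1) (by omega)]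
      have h3 : (2 : ℕ) ^ (m + 1 + 1 - j) = 2 ^ (m + 1 - j) + 2 ^ (m + 1 - j) := by
        have : m + 1 + 1 - j = (m + 1 - j) + 1 := by omega
        rw [this, pow_succ]; ring
      omega
  obtain ⟨m, rfl⟩ : ∃ m, i = m + 1 := ⟨i - 1, by omega⟩
  rw [h2 (m + 1) hi]
  exact key m (by omega)

/-- The binary comparison. -/
theorem exists_digit (K : ℕ) (a : ℕ → ℕ) (j i0 : ℕ) (hj : j ≤ i0) (h0 : ∀ i < i0, a i = 0)
    (h1 : a i0 ≤ 2 ^ (i0 - j)) (h2 : ∀ i > i0, a i = 2 ^ (i - j)) (s s' : ℕ → Bool)
    (h : dsum K a s < dsum K a s') :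
    ∃ i, i0 ≤ i ∧ i < K ∧ s i = false ∧ s' i = true ∧ ∀ i', i < i' → i' < K → s i' = s' i' := by
  induction K with
  | zero => simp [dsum] at h
  | succ K ih =>
    rw [dsum, dsum, Finset.sum_range_succ, Finset.sum_range_succ] at h
    rcases hs : s K with _ | _ <;> rcases hs' : s' K with _ | _
    · have h' : dsum K a s < dsum K a s' := by
        simpa [dsum, hs, hs'] using h
      obtain ⟨i, hi1, hi2, hi3, hi4, hi5⟩ := ih h'
      refine ⟨i, hi1, by omega, hi3, hi4, fun i' h3 h4 => ?_⟩
      rcases Nat.lt_or_ge i' K with h5 | h5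
      · exact hi5 i' h3 h5
      · have : i' = K := by omega
        rw [this, hs, hs']
    · by_cases hK : i0 ≤ K
      · exact ⟨K, hK, by omega, hs, hs', fun i' h3 h4 => by omega⟩
      · exfalso
        have hz : ∀ t : ℕ → Bool, (∑ i ∈ range K, if t i then a i else 0) = 0 := by
          intro t
          apply Finset.sum_eq_zero
          intro x hx
          rw [h0 x (by have := Finset.mem_range.1 hx; omega)]
          simp
        rw [hz, hz, h0 K (by omega)] at h
        simp at h
    · exfalso
      have hle : (∑ i ∈ range K, if s' i then a i else 0) ≤ ∑ i ∈ range K, a i := by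
        apply Finset.sum_le_sum
        intro x _
        split_ifs <;> omega
      rcases Nat.lt_or_ge i0 K with hK | hK
      · have := sum_le_of_super a j i0 hj h0 h1 h2 K hK
        simp [hs, hs'] at h
        omega
      · have hz : ∑ i ∈ range K, a i = 0 := by
          apply Finset.sum_eq_zero
          intro x hx
          exact h0 x (by have := Finset.mem_range.1 hx; omega)
        simp [hs, hs'] at h
        omega
    · have h' : dsum K a s < dsum K a s' := by
        simpa [dsum, hs, hs'] using h
      obtain ⟨i, hi1, hi2, hi3, hi4, hi5⟩ := ih h'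
      refine ⟨i, hi1, by omega, hi3, hi4, fun i' h3 h4 => ?_⟩
      rcases Nat.lt_or_ge i' K with h5 | h5
      · exact hi5 i' h3 h5
      · have : i' = K := by omega
        rw [this, hs, hs']

/-- The field comparison. -/
theorem lam_lt (K : ℕ) (G D : ℝ) (len : ℕ → ℝ) (hD : 0 ≤ D) (hlen : ∀ i < K, |len i| ≤ D)
    (hG : 2 * D + 2 ≤ G) (s s' : ℕ → Bool) (i : ℕ) (hi : i < K) (hpos : 1 / 2 ≤ len i)
    (hs : s i = false) (hs' : s' i = true) (heq : ∀ i', i < i' → i' < K → s i' = s' i') :
    lam K G len s < lam K G len s' := by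
  have hG1 : 1 ≤ G := by linarith
  have hG0 : 0 < G := by linarith
  -- the difference
  have hdiff : lam K G len s' - lam K G len s =
      ∑ x ∈ range K, ((if s' x then G ^ x * len x else 0) - (if s x then G ^ x * len x else 0)) := by
    rw [lam, lam, Finset.sum_sub_distrib]
  have hsplit : ∀ f : ℕ → ℝ, (∀ x, i < x → x < K → f x = 0) →
      ∑ x ∈ range K, f x = ∑ x ∈ range i, f x + f i := by
    intro f hf
    rw [← Finset.sum_range_succ]
    symm
    apply Finset.sum_subset
    · intro x hx
      rw [Finset.mem_range] at hx ⊢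
      omega
    · intro x hx hx'
      rw [Finset.mem_range] at hx hx'
      exact hf x (by omega) hx
  have hgeo : ∀ n : ℕ, (G - 1) * ∑ x ∈ range n, G ^ x = G ^ n - 1 := by
    intro n
    rw [mul_comm]; exact geom_sum_mul G n
  have hbound : |∑ x ∈ range i, ((if s' x then G ^ x * len x else 0) -
      (if s x then G ^ x * len x else 0))| ≤ D * ∑ x ∈ range i, G ^ x := by
    refine (Finset.abs_sum_le_sum_abs _ _).trans ?_
    rw [Finset.mul_sum]
    apply Finset.sum_le_sum
    intro x hx
    have hx' : x < K := by have := Finset.mem_range.1 hx; omega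
    have hp : 0 ≤ G ^ x := by positivity
    have h1 : |G ^ x * len x| ≤ D * G ^ x := by
      rw [abs_mul, abs_of_nonneg hp, mul_comm]
      exact mul_le_mul_of_nonneg_right (hlen x hx') hp
    have h2 : 0 ≤ D * G ^ x := by positivity
    split_ifs
    · simpa using h2
    · simpa using h1
    · simpa using h1
    · simpa using h2
  have hmain : lam K G len s' - lam K G len s > 0 := by
    rw [hdiff, hsplit _ (fun x hx1 hx2 => by rw [heq x hx1 hx2]; simp)]
    have hi1 : ((if s' i then G ^ i * len i else 0) - (if s i then G ^ i * len i else 0)) =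
        G ^ i * len i := by
      rw [hs, hs']; simp
    rw [hi1]
    have h3 := neg_le_of_abs_le hbound
    have h4 : 0 < G ^ i := by positivity
    have h5 := hgeo i
    have h6 : D * ∑ x ∈ range i, G ^ x < G ^ i * (1 / 2) := by
      have h7 : 0 ≤ ∑ x ∈ range i, G ^ x := Finset.sum_nonneg fun x _ => by positivity
      nlinarith
    have h8 : G ^ i * (1 / 2) ≤ G ^ i * len i := mul_le_mul_of_nonneg_left hpos h4.le
    linarith
  linarith

/-- Combined: larger digit sum implies larger field. -/
theorem lam_lt_of_dsum_lt (K : ℕ) (G D : ℝ) (len : ℕ → ℝ) (hD : 0 ≤ D)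
    (hlen : ∀ i < K, |len i| ≤ D) (hG : 2 * D + 2 ≤ G) (a : ℕ → ℕ) (j i0 : ℕ) (hj : j ≤ i0)
    (h0 : ∀ i < i0, a i = 0) (h1 : a i0 ≤ 2 ^ (i0 - j)) (h2 : ∀ i > i0, a i = 2 ^ (i - j))
    (hpos : ∀ i, i0 ≤ i → i < K → 1 / 2 ≤ len i) (s s' : ℕ → Bool)
    (h : dsum K a s < dsum K a s') : lam K G len s < lam K G len s' := by
  obtain ⟨i, hi1, hi2, hi3, hi4, hi5⟩ := exists_digit K a j i0 hj h0 h1 h2 s s' h
  exact lam_lt K G D len hD hlen hG s s' i hi2 (hpos i hi1 hi2) hi3 hi4 hi5

end Digits

end H44RNB
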